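import Pool.Agent.H234R3.TorC

/-!
A Riemannian 3-manifold without non-constant harmonic maps from closed manifolds, and a compact
subset no neighbourhood of which carries a strictly convex function.

`N` is the quotient of `ℝ × ℍ²` (coordinates `(r, x, y)`, metric `dr² + dx² + e^{2r} dy²`) by the
translations `(x, y) ↦ (x + n, y + m + √2 n)`, and `T` is the torus `r = 0`. For a harmonic map
from a closed manifold, the function `r` has nonnegative Laplacian, so it is constant, so `y` is
locally constant, so the map has values in a leaf `y = const`, which is an injectively immersed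
flat plane, and both coordinates are constant. The geodesics `r = 0`, `y = const` have values in the
compact torus `T`, so a strictly convex function near `T` would be bounded and strictly convex on
a whole line.
-/

set_option autoImplicit false

open scoped Manifold ContDiff
open Pool.Agent.H234R3

namespace Pool.Agent.Results.MP_267b52_gt.IrrationalLeaves

theorem result :
    ∃ (N : Type) (_ : TopologicalSpace N) (_ : T2Space N) (_ : SecondCountableTopology N)
      (_ : ConnectedSpace N) (_ : ChartedSpace (ℝ × ℝ × ℝ) N)
      (_ : IsManifold 𝓘(ℝ, ℝ × ℝ × ℝ) ∞ N) (h : RMetric 𝓘(ℝ, ℝ × ℝ × ℝ) N) (T : Set N),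
      IsCompact T ∧ IsConnected T ∧
      ∀ V : Set N, T ⊆ V → PropertyTwo h V ∧ ¬ PropertyOne h V :=
  ⟨TN, inferInstance, inferInstance, inferInstance, inferInstance, inferInstance, inferInstance,
    hTN, torus0, isCompact_torus0, isConnected_torus0,
    fun V hV => ⟨propertyTwo V, not_propertyOne hV⟩⟩

end Pool.Agent.Results.MP_267b52_gt.IrrationalLeaves
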